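import Mathlib
import Pool.Agent.TH278.DX.Defs

/-! The infimum of the invariant bounds is attained (project DX of helper278). -/

set_option autoImplicit false

namespace Pool.Agent.TH720.J4452

open Pool.Agent.TH278.DX Filter Topology ComplexConjugate

section

variable {H : Type} [NormedAddCommGroup H] [InnerProductSpace ℂ H]

/-- the Cauchy-Schwarz inequality for a positive operator -/
theorem cs (A : H →L[ℂ] H) (hs : ∀ x y : H, inner ℂ (A x) y = inner ℂ x (A y))
    (hp : ∀ x : H, 0 ≤ (inner ℂ (A x) x).re) {K : ℝ} (hK : 0 ≤ K)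
    (hb : ∀ x : H, (inner ℂ (A x) x).re ≤ K * ‖x‖ ^ 2) (x y : H) :
    ‖inner ℂ (A x) y‖ ≤ K * ‖x‖ * ‖y‖ := by
  let c : PreInnerProductSpace.Core ℂ H :=
    { inner := fun u v => inner ℂ (A u) v
      conj_inner_symm := fun u v => by
        show conj (inner ℂ (A v) u) = inner ℂ (A u) v
        rw [hs v u, inner_conj_symm]
      re_inner_nonneg := fun u => hp u
      add_left := fun u v w => by
        show inner ℂ (A (u + v)) w = inner ℂ (A u) w + inner ℂ (A v) w
        rw [map_add, inner_add_left]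
      smul_left := fun u v r => by
        show inner ℂ (A (r • u)) v = conj r * inner ℂ (A u) v
        rw [map_smul, inner_smul_left] }
  have h1 : ‖inner ℂ (A x) y‖ * ‖inner ℂ (A y) x‖ ≤
      (inner ℂ (A x) x).re * (inner ℂ (A y) y).re :=
    @InnerProductSpace.Core.inner_mul_inner_self_le ℂ H _ _ _ c x y
  have h2 : ‖inner ℂ (A y) x‖ = ‖inner ℂ (A x) y‖ := by
    rw [hs y x, ← inner_conj_symm, RCLike.norm_conj]
  rw [h2] at h1
  have h3 : (inner ℂ (A x) x).re * (inner ℂ (A y) y).re ≤ (K * ‖x‖ ^ 2) * (K * ‖y‖ ^ 2) :=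
    mul_le_mul (hb x) (hb y) (hp y) (by positivity)
  have h4 : 0 ≤ K * ‖x‖ * ‖y‖ := by positivity
  nlinarith [norm_nonneg (inner ℂ (A x) y)]

end

theorem inv_closed {G H : Type} [Group G] [NormedAddCommGroup H] [InnerProductSpace ℂ H]
    [CompleteSpace H] (π : G →* (H →L[ℂ] H)ˣ) (M : ℝ) (h : ∀ M' : ℝ, M < M' → Inv π 1 M') :
    Inv π 1 M := by
  choose A hsym hlow hup hinv using fun n : ℕ => h (M + 1 / ((n : ℝ) + 1))
    (lt_add_of_pos_right M (by positivity))
  set K : ℝ := |M| + 1 with hK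
  have hK0 : 0 ≤ K := by positivity
  have hpos : ∀ n x, 0 ≤ (inner ℂ (A n x) x).re := fun n x =>
    (by positivity : (0 : ℝ) ≤ 1 * ‖x‖ ^ 2).trans (hlow n x)
  have hKn : ∀ n : ℕ, M + 1 / ((n : ℝ) + 1) ≤ K := by
    intro n
    have h1 : 1 / ((n : ℝ) + 1) ≤ 1 := by
      rw [div_le_one (by positivity)]
      have : (0 : ℝ) ≤ n := Nat.cast_nonneg n
      linarith
    have := le_abs_self M
    linarith
  have hb : ∀ n x, (inner ℂ (A n x) x).re ≤ K * ‖x‖ ^ 2 := fun n x =>
    (hup n x).trans (mul_le_mul_of_nonneg_right (hKn n) (by positivity))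
  have hbd : ∀ n x y, ‖inner ℂ (A n x) y‖ ≤ K * ‖x‖ * ‖y‖ := fun n x y =>
    cs (A n) (hsym n) (hpos n) hK0 (hb n) x y
  -- the limit
  set U : Ultrafilter ℕ := hyperfilter ℕ with hU
  have hlim : ∀ x y, ∃ a : ℂ, Tendsto (fun n => inner ℂ (A n x) y) (U : Filter ℕ) (𝓝 a) := by
    intro x y
    have hc : IsCompact (Metric.closedBall (0 : ℂ) (K * ‖x‖ * ‖y‖)) := isCompact_closedBall _ _
    obtain ⟨a, _, ha⟩ := hc.ultrafilter_le_nhds (U.map fun n => inner ℂ (A n x) y) (by
      rw [le_principal_iff, Ultrafilter.coe_map, mem_map]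
      refine Eventually.of_forall fun n => ?_
      show inner ℂ (A n x) y ∈ Metric.closedBall (0 : ℂ) (K * ‖x‖ * ‖y‖)
      rw [mem_closedBall_zero_iff]
      exact hbd n x y)
    exact ⟨a, ha⟩
  choose a ha using hlim
  have hu : ∀ {x y : H} {b : ℂ}, Tendsto (fun n => inner ℂ (A n x) y) (U : Filter ℕ) (𝓝 b) →
      a x y = b := fun {x y b} hb => tendsto_nhds_unique (ha x y) hb
  have e1 : ∀ x x' y, a (x + x') y = a x y + a x' y := fun x x' y => hu (by
    simpa only [map_add, inner_add_left] using (ha x y).add (ha x' y))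
  have e2 : ∀ (c : ℂ) (x y), a (c • x) y = (starRingEnd ℂ) c • a x y := fun c x y => hu (by
    simpa only [map_smul, inner_smul_left, smul_eq_mul] using
      (ha x y).const_mul ((starRingEnd ℂ) c))
  have e3 : ∀ x y y', a x (y + y') = a x y + a x y' := fun x y y' => hu (by
    simpa only [inner_add_right] using (ha x y).add (ha x y'))
  have e4 : ∀ (c : ℂ) (x y), a x (c • y) = (RingHom.id ℂ) c • a x y := fun c x y => hu (by
    simpa only [inner_smul_right, smul_eq_mul, RingHom.id_apply] using (ha x y).const_mul c)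
  have e5 : ∀ x y, ‖a x y‖ ≤ K * ‖x‖ * ‖y‖ := fun x y =>
    le_of_tendsto (ha x y).norm (Eventually.of_forall fun n => hbd n x y)
  let L : H →ₗ⋆[ℂ] H →ₗ[ℂ] ℂ := LinearMap.mk₂'ₛₗ (starRingEnd ℂ) (RingHom.id ℂ) a e1 e2 e3 e4
  let B : H →L⋆[ℂ] H →L[ℂ] ℂ := LinearMap.mkContinuous₂ L K e5
  have hB : ∀ x y, inner ℂ (InnerProductSpace.continuousLinearMapOfBilin B x) y = a x y :=
    fun x y => InnerProductSpace.continuousLinearMapOfBilin_apply B x y
  refine ⟨InnerProductSpace.continuousLinearMapOfBilin B, ?_, ?_, ?_, ?_⟩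
  · intro x y
    rw [hB, ← inner_conj_symm, hB]
    refine hu ?_
    have h1 := (Complex.continuous_conj.tendsto _).comp (ha y x)
    refine h1.congr fun n => ?_
    show conj (inner ℂ (A n y) x) = inner ℂ (A n x) y
    rw [hsym n y x, inner_conj_symm]
  · intro x
    rw [hB]
    exact ge_of_tendsto ((Complex.continuous_re.tendsto _).comp (ha x x))
      (Eventually.of_forall fun n => hlow n x)
  · intro x
    rw [hB]
    have h1 : Tendsto (fun n : ℕ => (M + 1 / ((n : ℝ) + 1)) * ‖x‖ ^ 2) (U : Filter ℕ)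
        (𝓝 ((M + 0) * ‖x‖ ^ 2)) :=
      (((tendsto_one_div_add_atTop_nhds_zero_nat (𝕜 := ℝ)).mono_left
        Nat.hyperfilter_le_atTop).const_add M).mul_const _
    rw [add_zero] at h1
    exact le_of_tendsto_of_tendsto ((Complex.continuous_re.tendsto _).comp (ha x x)) h1
      (Eventually.of_forall fun n => hup n x)
  · intro g x y
    rw [hB, hB]
    refine hu ?_
    exact (ha x y).congr fun n => (hinv n g x y).symm

end Pool.Agent.TH720.J4452
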