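import Mathlib
import Pool.Agent.TH881.RG.StD
import Pool.Agent.TH698.J1510

/-!
# Job 2024 (RG-BD): the bilinear estimate for differences
-/

set_option autoImplicit false

namespace Pool.Agent.TH720.J2024

open Finset Filter Topology
open Pool.Agent.TH881
open Pool.Agent.TH881.RG
open Pool.Agent.TH698.RGE (split cls_sub_It card_cls_le alg small_mass eef_le_one sum_units large)
open Pool.Agent.H373R2.T7

/-- the sum of `Λ (n + b)` -/
noncomputable def dv (B : Finset ℕ) (n : ℕ) : ℝ := ∑ b ∈ B, ArithmeticFunction.vonMangoldt (n + b)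

lemma dv_nonneg (B : Finset ℕ) (n : ℕ) : 0 ≤ dv B n :=
  sum_nonneg fun _ _ => ArithmeticFunction.vonMangoldt_nonneg

lemma dv_mono {B B' : Finset ℕ} (h : B ⊆ B') (n : ℕ) : dv B n ≤ dv B' n :=
  sum_le_sum_of_subset_of_nonneg h fun _ _ _ => ArithmeticFunction.vonMangoldt_nonneg

/-- the bad part for one `n` -/
lemma bad_one (w N n : ℕ) (B : Finset ℕ) (hB : ∀ b ∈ B, 1 ≤ n + b ∧ n + b ≤ N) :
    ∑ b ∈ B, (if ¬ (n + b).Coprime (Wp w) then ArithmeticFunction.vonMangoldt (n + b) else 0) ≤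
      (w * Nat.log 2 N : ℝ) * Real.log w := by
  classical
  refine le_trans ?_ (small_mass w N)
  rw [← sum_filter]
  have hinj : Set.InjOn (fun b => n + b)
      ((B.filter (fun b => ¬ (n + b).Coprime (Wp w)) : Finset ℕ) : Set ℕ) := by
    intro a _ b _ hab
    simp only at hab
    omega
  rw [← sum_image (f := fun k => ArithmeticFunction.vonMangoldt k) hinj]
  apply sum_le_sum_of_subset_of_nonneg
  · intro k hk
    rw [mem_image] at hk
    obtain ⟨b, hb, rfl⟩ := hk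
    rw [mem_filter] at hb
    rw [mem_filter, mem_Icc]
    exact ⟨hB b hb.1, hb.2⟩
  · intro _ _ _
    exact ArithmeticFunction.vonMangoldt_nonneg

/-- the conclusion of the mixing lemma for one window -/
def MixAt (w N M M' H : ℕ) (κ ε₁ : ℝ) : Prop :=
  ∀ t : ℕ, M' < t → t ≤ M' + Wp w → ∀ B : Finset ℕ, (∀ b ∈ B, b ≤ M) → (∀ b ∈ B, b.Prime) →
    (∀ b ∈ B, √(N : ℝ) < b) → (∀ b ∈ B, ∀ b' ∈ B, b ≡ b' [MOD Wp w]) →
    (∀ b ∈ B, (t + b).Coprime (Wp w)) →
    κ * ((M : ℝ) / (Nat.totient (Wp w) * Real.log M)) ≤ B.card →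
    ∀ E ⊆ It w M' H t,
      |∑ n ∈ E, dv B n - E.card * ((Vz w)⁻¹ * B.card)| ≤
        ε₁ * (((H : ℝ) / Wp w) * ((Vz w)⁻¹ * B.card))

/-- one pair of classes, many primes -/
lemma pair_good {w N M M' H : ℕ} {κ ε₁ : ℝ} (hε : 0 < ε₁) (hmix : MixAt w N M M' H κ ε₁)
    (hH : 0 < (H : ℝ) / Wp w) (hH1 : 1 ≤ ε₁ * ((H : ℝ) / Wp w)) (hp : 0 < pp w M)
    {E : Finset ℕ} (hE : E ⊆ Ioc M' (M' + H)) {B : Finset ℕ}
    (hB : ∀ b ∈ B, b.Prime ∧ √(N : ℝ) < b ∧ b ≤ M) {a t : ZMod (Wp w)}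
    (hBa : ∀ b ∈ B, (b : ZMod (Wp w)) = a) (hta : IsUnit (t + a))
    (h1 : κ * pp w M ≤ B.card) (h2 : (B.card : ℝ) ≤ 2 * pp w M) :
    |∑ n ∈ cls w E t, dv B n -
      YY w M H * ((B.card : ℝ) / pp w M * eef w H E t)| ≤ 4 * ε₁ * YY w M H := by
  obtain ⟨t', ht1, ht2, ht3⟩ := exists_rep w M' t
  have hm := hmix t' ht1 ht2 B (fun b hb => (hB b hb).2.2) (fun b hb => (hB b hb).1)
    (fun b hb => (hB b hb).2.1)
    (fun b hb b' hb' => by
      rw [← ZMod.natCast_eq_natCast_iff, hBa b hb, hBa b' hb'])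
    (fun b hb => by
      rw [← ZMod.isUnit_iff_coprime, Nat.cast_add, ht3, hBa b hb]
      exact hta) h1 (cls w E t) (cls_sub_It hE ht3)
  exact alg (Nat.cast_nonneg _) (card_cls_le hE t) (Nat.cast_nonneg _) h2
    (inv_pos.2 (Vz_pos w)) hp hε hH hH1 rfl hm

/-- one pair of classes -/
lemma pair_all {w N M M' H : ℕ} {κ ε₁ : ℝ} (hκ : 0 < κ) (hκ1 : κ ≤ 1 / 4) (hε : 0 < ε₁)
    (hmix : MixAt w N M M' H κ ε₁)
    (hH : 0 < (H : ℝ) / Wp w) (hH1 : 1 ≤ ε₁ * ((H : ℝ) / Wp w)) (hp : 0 < pp w M)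
    (hp1 : 1 ≤ κ * pp w M)
    {E : Finset ℕ} (hE : E ⊆ Ioc M' (M' + H)) {B : Finset ℕ}
    (hB : ∀ b ∈ B, b.Prime ∧ √(N : ℝ) < b ∧ b ≤ M) {a t : ZMod (Wp w)} (hta : IsUnit (t + a))
    (hPC : |bbf w M ((Icc 1 M).filter (fun p : ℕ => p.Prime ∧ √(N : ℝ) < p)) a - 1| ≤ 1 / 2) :
    |∑ n ∈ cls w E t, dv (cls w B a) n -
      YY w M H * (bbf w M B a * eef w H E t)| ≤ (2 * κ + 4 * ε₁) * YY w M H := by
  classical
  have hY : 0 < YY w M H := by
    unfold YY
    have := inv_pos.2 (Vz_pos w)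
    positivity
  have he0 := eef_nonneg w H E t
  have he1 := eef_le_one hE t
  set P := cls w ((Icc 1 M).filter (fun p : ℕ => p.Prime ∧ √(N : ℝ) < p)) a with hP
  have hPmem : ∀ b ∈ P, b.Prime ∧ √(N : ℝ) < b ∧ b ≤ M := by
    intro b hb
    rw [hP, mem_cls, mem_filter, mem_Icc] at hb
    exact ⟨hb.1.2.1, hb.1.2.2, hb.1.1.2⟩
  have hPa : ∀ b ∈ P, (b : ZMod (Wp w)) = a := fun b hb => (mem_cls.1 hb).2
  have hBP : cls w B a ⊆ P := by
    intro b hb
    rw [mem_cls] at hb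
    rw [hP, mem_cls, mem_filter, mem_Icc]
    obtain ⟨h1, h2, h3⟩ := hB b hb.1
    exact ⟨⟨⟨h1.one_lt.le, h3⟩, h1, h2⟩, hb.2⟩
  have hPC' : |(P.card : ℝ) / pp w M - 1| ≤ 1 / 2 := hPC
  rw [abs_le] at hPC'
  have hP1 : pp w M / 2 ≤ P.card := by
    have h1 : 1 / 2 ≤ (P.card : ℝ) / pp w M := by linarith [hPC'.1]
    rw [le_div_iff₀ hp] at h1
    linarith
  have hP2 : (P.card : ℝ) ≤ 2 * pp w M := by
    have h1 : (P.card : ℝ) / pp w M ≤ 2 := by linarith [hPC'.2]
    rwa [div_le_iff₀ hp] at h1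
  have hBmem : ∀ b ∈ cls w B a, b.Prime ∧ √(N : ℝ) < b ∧ b ≤ M := fun b hb => hPmem b (hBP hb)
  have hBa : ∀ b ∈ cls w B a, (b : ZMod (Wp w)) = a := fun b hb => hPa b (hBP hb)
  have hb2 : ((cls w B a).card : ℝ) ≤ 2 * pp w M :=
    le_trans (by exact_mod_cast card_le_card hBP) hP2
  rcases le_or_gt (κ * pp w M) ((cls w B a).card : ℝ) with hcase | hcase
  · refine (pair_good hε hmix hH hH1 hp hE hBmem hBa hta hcase hb2).trans ?_
    apply mul_le_mul_of_nonneg_right _ hY.le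
    linarith
  · -- enlarge
    have hc1 : (cls w B a).card ≤ ⌈κ * pp w M⌉₊ := by
      have : ((cls w B a).card : ℝ) ≤ (⌈κ * pp w M⌉₊ : ℝ) := hcase.le.trans (Nat.le_ceil _)
      exact_mod_cast this
    have hc2 : (⌈κ * pp w M⌉₊ : ℝ) ≤ 2 * (κ * pp w M) := by
      have := Nat.ceil_lt_add_one (show 0 ≤ κ * pp w M by positivity)
      linarith
    have hc3 : ⌈κ * pp w M⌉₊ ≤ P.card := by
      have h1 : (⌈κ * pp w M⌉₊ : ℝ) ≤ P.card := by
        refine hc2.trans (le_trans ?_ hP1)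
        nlinarith
      exact_mod_cast h1
    obtain ⟨B', hB1, hB2, hB3⟩ := Finset.exists_subsuperset_card_eq hBP hc1 hc3
    have hB'2 : (B'.card : ℝ) ≤ 2 * (κ * pp w M) := by rw [hB3]; exact hc2
    have hg := pair_good hε hmix hH hH1 hp hE (B := B') (a := a) (t := t)
      (fun b hb => hPmem b (hB2 hb)) (fun b hb => hPa b (hB2 hb)) hta
      (by rw [hB3]; exact Nat.le_ceil _) (hB'2.trans (by nlinarith))
    rw [abs_le] at hg
    set S' := ∑ n ∈ cls w E t, dv B' n with hS'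
    set S := ∑ n ∈ cls w E t, dv (cls w B a) n with hS
    have hS0 : 0 ≤ S := sum_nonneg fun n _ => dv_nonneg _ _
    have hSS : S ≤ S' := sum_le_sum fun n _ => dv_mono hB1 n
    have hq : (B'.card : ℝ) / pp w M * eef w H E t ≤ 2 * κ := by
      have h1 : (B'.card : ℝ) / pp w M ≤ 2 * κ := by
        rw [div_le_iff₀ hp]
        linarith
      calc (B'.card : ℝ) / pp w M * eef w H E t ≤ 2 * κ * 1 :=
            mul_le_mul h1 he1 he0 (by positivity)
        _ = 2 * κ := mul_one _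
    have hm1 : YY w M H * ((B'.card : ℝ) / pp w M * eef w H E t) ≤ 2 * κ * YY w M H := by
      rw [mul_comm]
      exact mul_le_mul_of_nonneg_right hq hY.le
    have hbb : bbf w M B a ≤ κ := by
      unfold bbf
      rw [div_le_iff₀ hp]
      exact hcase.le
    have hbb0 : 0 ≤ bbf w M B a := by
      unfold bbf
      positivity
    have hm2 : YY w M H * (bbf w M B a * eef w H E t) ≤ κ * YY w M H := by
      rw [mul_comm]
      apply mul_le_mul_of_nonneg_right _ hY.le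
      calc bbf w M B a * eef w H E t ≤ κ * 1 := mul_le_mul hbb he1 he0 hκ.le
        _ = κ := mul_one _
    have hm3 : 0 ≤ YY w M H * (bbf w M B a * eef w H E t) := by positivity
    have hκY : 0 ≤ κ * YY w M H := by positivity
    have hεY : 0 ≤ ε₁ * YY w M H := by positivity
    rw [abs_le]
    constructor
    · linarith
    · linarith [hg.2]

theorem bilinearD (hPC : StPC) : StBD := by
  classical
  intro ε ρ hε hρ
  obtain ⟨κ, hκd⟩ : ∃ κ : ℝ, κ = min (1 / 4) (ε / 16) := ⟨_, rfl⟩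
  have hκ : 0 < κ := by rw [hκd]; positivity
  have hκ1 : κ ≤ 1 / 4 := by rw [hκd]; exact min_le_left _ _
  have hκ2 : κ ≤ ε / 16 := by rw [hκd]; exact min_le_right _ _
  obtain ⟨w0, hw0⟩ := mixD stPM κ κ ρ hκ (by linarith) hκ (by linarith) hρ
  refine ⟨w0, fun w hw => ?_⟩
  obtain ⟨N1, hN1⟩ := hw0 w hw
  obtain ⟨N2, hN2⟩ := hPC w (1 / 2) ρ (by norm_num) hρ
  have hWr : (0 : ℝ) < Wp w := by exact_mod_cast Wp_pos w
  have hφ := totient_Wp_pos w
  obtain ⟨N3, hN3⟩ := large w (Wp w) (Nat.totient (Wp w)) κ κ ρ (ε / 2) hWr hφ hκ hκ hρ (by positivity)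
  refine ⟨max N1 (max N2 N3), fun N hN M M' H hMH hH hM E hE B hB => ?_⟩
  simp only [max_le_iff] at hN
  obtain ⟨l1, l2, l3, l4, l5, l6, l7⟩ := hN3 N hN.2.2 M H (by omega) hH hM
  have hmix : MixAt w N M M' H κ κ := fun t h1 h2 B' a1 a2 a3 a4 a5 a6 E' a7 =>
    hN1 N hN.1 M M' H t h1 h2 hMH hH hM B' a1 a2 a3 a4 a5 a6 E' a7
  have hPC' := hN2 N hN.2.1 M (by omega) hM
  have hp : 0 < pp w M := l3
  have hY : 0 < YY w M H := by
    unfold YY
    have := inv_pos.2 (Vz_pos w)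
    positivity
  -- primes of `B` are units
  have hBu : ∀ b ∈ B, IsUnit (b : ZMod (Wp w)) := by
    intro b hb
    obtain ⟨h1, h2, _⟩ := hB b hb
    rw [ZMod.isUnit_iff_coprime, Nat.Prime.coprime_iff_not_dvd h1, prime_dvd_Wp h1]
    intro h3
    have h4 : (b : ℝ) ≤ w := by exact_mod_cast h3
    linarith
  have hEN : ∀ n ∈ E, M' < n ∧ n ≤ M' + H := by
    intro n hn
    have := mem_Ioc.1 (hE hn)
    omega
  -- the sum over the pairs of classes
  set T : ZMod (Wp w) → ZMod (Wp w) → ℝ := fun a t =>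
    ∑ n ∈ cls w E t, dv (cls w B a) n with hT
  have hS : ∑ n ∈ E, ∑ b ∈ B, ArithmeticFunction.vonMangoldt (n + b) =
      ∑ a ∈ UU w, ∑ t : ZMod (Wp w), T a t := by
    rw [split w E B hBu]
    rfl
  have hmain : YY w M H * ∑ a ∈ UU w, bbf w M B a * rr w (eef w H E) (-a) =
      ∑ a ∈ UU w, ∑ t : ZMod (Wp w), (if IsUnit (t - -a) then
        YY w M H * (bbf w M B a * eef w H E t) else 0) := by
    rw [mul_sum]
    refine sum_congr rfl fun a _ => ?_
    unfold rr
    rw [mul_sum, mul_sum]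
    refine sum_congr rfl fun t _ => ?_
    by_cases h : IsUnit (t - -a)
    · rw [if_pos h, if_pos h]
    · rw [if_neg h, if_neg h, mul_zero, mul_zero]
  have hT0 : ∀ a t, 0 ≤ T a t := fun a t => sum_nonneg fun n _ => dv_nonneg _ _
  -- the pairs with `t + a` not a unit
  have hbad : ∑ a ∈ UU w, ∑ t : ZMod (Wp w), (if IsUnit (t - -a) then 0 else T a t) ≤
      (H : ℝ) * ((w * Nat.log 2 N : ℝ) * Real.log w) := by
    have h1 : ∑ a ∈ UU w, ∑ t : ZMod (Wp w), (if IsUnit (t - -a) then 0 else T a t) =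
        ∑ n ∈ E, ∑ b ∈ B, (if ¬ (n + b).Coprime (Wp w) then
          ArithmeticFunction.vonMangoldt (n + b) else 0) := by
      rw [split w E B hBu]
      refine sum_congr rfl fun a _ => sum_congr rfl fun t _ => ?_
      have hiff : ∀ n ∈ cls w E t, ∀ b ∈ cls w B a, ((n + b).Coprime (Wp w) ↔ IsUnit (t - -a)) := by
        intro n hn b hb
        rw [mem_cls] at hn hb
        rw [← ZMod.isUnit_iff_coprime, Nat.cast_add, hn.2, hb.2, sub_neg_eq_add]
      by_cases h : IsUnit (t - -a)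
      · rw [if_pos h]
        symm
        refine sum_eq_zero fun n hn => sum_eq_zero fun b hb => ?_
        rw [if_neg]
        intro h3
        exact h3 ((hiff n hn b hb).2 h)
      · rw [if_neg h, hT]
        refine sum_congr rfl fun n hn => ?_
        unfold dv
        refine sum_congr rfl fun b hb => ?_
        have h2 : ¬ (n + b).Coprime (Wp w) := fun h3 => h ((hiff n hn b hb).1 h3)
        rw [if_pos h2]
    rw [h1]
    calc _ ≤ ∑ _n ∈ E, (w * Nat.log 2 N : ℝ) * Real.log w :=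
          sum_le_sum fun n hn => bad_one w N n B fun b hb => by
            have a1 := hEN n hn
            have a2 := (hB b hb).2.2
            omega
      _ = E.card * ((w * Nat.log 2 N : ℝ) * Real.log w) := by rw [sum_const, nsmul_eq_mul]
      _ ≤ _ := by
          have hcard : E.card ≤ H := by
            have := card_le_card hE
            rw [Nat.card_Ioc] at this
            omega
          have h5 := Real.log_natCast_nonneg w
          apply mul_le_mul_of_nonneg_right _ (by positivity)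
          exact_mod_cast hcard
  -- `YY φ² = H M / log M`
  have hYφ : YY w M H * (Nat.totient (Wp w) : ℝ) ^ 2 = H * ((M : ℝ) / Real.log M) := by
    unfold YY pp
    have hV := Vz_pos w
    have hlog : Real.log (M : ℝ) ≠ 0 := by
      intro h0
      rw [h0, div_zero] at l7
      exact lt_irrefl _ l7
    rw [totient_Wp w]
    field_simp
  rw [hS, hmain, ← sum_sub_distrib]
  calc |∑ a ∈ UU w, (∑ t : ZMod (Wp w), T a t - ∑ t : ZMod (Wp w), (if IsUnit (t - -a) then
        YY w M H * (bbf w M B a * eef w H E t) else 0))|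
      ≤ ∑ a ∈ UU w, ∑ t : ZMod (Wp w), ((if IsUnit (t - -a) then (ε / 2) * YY w M H else 0) +
          (if IsUnit (t - -a) then 0 else T a t)) := by
        refine (abs_sum_le_sum_abs _ _).trans (sum_le_sum fun a ha => ?_)
        rw [← sum_sub_distrib]
        refine (abs_sum_le_sum_abs _ _).trans (sum_le_sum fun t _ => ?_)
        by_cases h : IsUnit (t - -a)
        · rw [if_pos h, if_pos h, if_pos h, add_zero]
          have h' : IsUnit (t + a) := by rwa [sub_neg_eq_add] at h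
          refine (pair_all hκ hκ1 hκ hmix l1 l2 hp l4 hE hB h' (hPC' a (mem_UU.1 ha))).trans ?_
          apply mul_le_mul_of_nonneg_right _ hY.le
          linarith
        · rw [if_neg h, if_neg h, if_neg h, zero_add, sub_zero, abs_of_nonneg (hT0 a t)]
    _ = ∑ a ∈ UU w, ∑ t : ZMod (Wp w), (if IsUnit (t - -a) then (ε / 2) * YY w M H else 0) +
          ∑ a ∈ UU w, ∑ t : ZMod (Wp w), (if IsUnit (t - -a) then 0 else T a t) := by
        rw [← sum_add_distrib]
        exact sum_congr rfl fun a _ => sum_add_distrib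
    _ ≤ (ε / 2) * (YY w M H * (Nat.totient (Wp w) : ℝ) ^ 2) +
          (ε / 2) * (YY w M H * (Nat.totient (Wp w) : ℝ) ^ 2) := by
        refine add_le_add (le_of_eq ?_) (hbad.trans ?_)
        · rw [sum_congr rfl fun a _ => sum_units w (-a) ((ε / 2) * YY w M H), sum_const, nsmul_eq_mul,
            card_UU]
          ring
        · rw [hYφ]
          calc (H : ℝ) * ((w * Nat.log 2 N : ℝ) * Real.log w) ≤ H * (ε / 2 * (M / Real.log M)) :=
                mul_le_mul_of_nonneg_left l5 (Nat.cast_nonneg _)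
            _ = _ := by ring
    _ = ε * (YY w M H * (Nat.totient (Wp w) : ℝ) ^ 2) := by ring

end Pool.Agent.TH720.J2024
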