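import Pool.Agent.TH387.EI.Defs
import Pool.Agent.H847R2.Kad5.Wlim

/-!
# Weak limits of `π (φ z)` (part EI-5b)
-/

set_option autoImplicit false

open scoped ComplexOrder InnerProductSpace

noncomputable section

namespace Pool.Agent.TH720.EILim

open Pool.Agent.TH387.EI Filter

universe u

variable {A : Type u} [NonUnitalCStarAlgebra A]
  {H : Type u} [NormedAddCommGroup H] [InnerProductSpace ℂ H] [CompleteSpace H]

/-- approximation of an arbitrary contraction on a finite set -/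
theorem approx {ρ : A →⋆ₙₐ[ℂ] (H →L[ℂ] H)} (hρ : Kap ρ) {T : H →L[ℂ] H} (hT : ‖T‖ ≤ 1)
    (F : Finset H) {τ : ℝ} (hτ : 0 < τ) :
    ∃ z : A, ‖z‖ ≤ 1 ∧ ∀ v ∈ F, ‖(2 : ℂ) • ρ z v - T v‖ ≤ 2 * τ := by
  have h1 : ‖((realPart T : selfAdjoint (H →L[ℂ] H)) : H →L[ℂ] H)‖ ≤ 1 :=
    (realPart.norm_le T).trans hT
  have h2 : ‖((imaginaryPart T : selfAdjoint (H →L[ℂ] H)) : H →L[ℂ] H)‖ ≤ 1 :=
    (imaginaryPart.norm_le T).trans hT
  obtain ⟨a, -, ha, hav⟩ := hρ _ (realPart T).2 h1 F τ hτ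
  obtain ⟨b, -, hb, hbv⟩ := hρ _ (imaginaryPart T).2 h2 F τ hτ
  refine ⟨(1 / 2 : ℂ) • (a + Complex.I • b), ?_, ?_⟩
  · rw [norm_smul]
    have h3 : ‖a + Complex.I • b‖ ≤ 2 := by
      refine (norm_add_le _ _).trans ?_
      rw [norm_smul, Complex.norm_I, one_mul]
      linarith
    have h4 : ‖(1 / 2 : ℂ)‖ = 1 / 2 := by simp
    rw [h4]
    linarith
  · intro v hv
    have e1 : (2 : ℂ) • ρ ((1 / 2 : ℂ) • (a + Complex.I • b)) v =
        ρ a v + Complex.I • ρ b v := by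
      rw [map_smul, map_add, map_smul, ContinuousLinearMap.smul_apply, smul_smul,
        ContinuousLinearMap.add_apply, ContinuousLinearMap.smul_apply]
      norm_num
    have e2 : T v = ((realPart T : selfAdjoint (H →L[ℂ] H)) : H →L[ℂ] H) v +
        Complex.I • ((imaginaryPart T : selfAdjoint (H →L[ℂ] H)) : H →L[ℂ] H) v := by
      conv_lhs => rw [← realPart_add_I_smul_imaginaryPart T]
      rfl
    rw [e1, e2, add_sub_add_comm, ← smul_sub]
    refine (norm_add_le _ _).trans ?_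
    rw [norm_smul, Complex.norm_I, one_mul]
    have := hav v hv
    have := hbv v hv
    linarith

end Pool.Agent.TH720.EILim

namespace Pool.Agent.TH387.EI

open Filter

universe u

theorem kap_lim : KapLimP.{u} := by
  classical
  intro A B _ _ φ hφ H K _ _ _ _ _ _ ρ hρ π T hT
  haveI : (atTop : Filter (Finset H × ℕ)).NeBot := by
    rw [← prod_atTop_atTop_eq]
    infer_instance
  choose z hz1 hz2 using fun i : Finset H × ℕ =>
    Pool.Agent.TH720.EILim.approx hρ hT i.1 (τ := 1 / ((i.2 : ℝ) + 1)) (by positivity)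
  let U : Ultrafilter (Finset H × ℕ) := Ultrafilter.of atTop
  have hU : (U : Filter (Finset H × ℕ)) ≤ atTop := Ultrafilter.of_le _
  have hN : ∀ i, ‖(2 : ℂ) • π (φ (z i))‖ ≤ 2 := by
    intro i
    rw [norm_smul]
    have h1 : ‖π (φ (z i))‖ ≤ ‖φ (z i)‖ := NonUnitalStarAlgHom.norm_apply_le π _
    have h2 := hφ (z i) (hz1 i)
    have h3 : ‖(2 : ℂ)‖ = 2 := by simp
    rw [h3]
    linarith
  obtain ⟨S, hS, hlim⟩ := H770R2.Kad.prove_wlim.{u} K (Finset H × ℕ) U
    (fun i => (2 : ℂ) • π (φ (z i))) 2 (by norm_num) hN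
  refine ⟨S, hS, ?_⟩
  intro v w p q c r h
  -- strong convergence at `q`
  have hq : Tendsto (fun i => (2 : ℂ) • ρ (z i) q) U (nhds (T q)) := by
    refine Tendsto.mono_left ?_ hU
    rw [tendsto_iff_norm_sub_tendsto_zero]
    have h0 : Tendsto (fun i : Finset H × ℕ => 2 * (1 / ((i.2 : ℝ) + 1))) atTop (nhds 0) := by
      have h1 : Tendsto (fun n : ℕ => 1 / ((n : ℝ) + 1)) atTop (nhds 0) :=
        tendsto_one_div_add_atTop_nhds_zero_nat
      have h2 : Tendsto (fun i : Finset H × ℕ => i.2) atTop atTop := by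
        rw [← prod_atTop_atTop_eq]
        exact tendsto_snd
      have h3 := (h1.comp h2).const_mul 2
      simpa using h3
    refine squeeze_zero' (Eventually.of_forall fun i => norm_nonneg _) ?_ h0
    filter_upwards [eventually_ge_atTop (({q} : Finset H), 0)] with i hi
    exact hz2 i q (hi.1 (Finset.mem_singleton_self q))
  have hlim1 := hlim w v
  have hlim2 : Tendsto (fun i => ⟪p, (2 : ℂ) • ρ (z i) q⟫_ℂ) U (nhds ⟪p, T q⟫_ℂ) :=
    tendsto_const_nhds.inner hq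
  have hlim3 := (hlim1.sub (hlim2.const_mul c)).norm
  refine le_of_tendsto hlim3 (Eventually.of_forall fun i => ?_)
  have h1 := h (z i) (hz1 i)
  have e : ⟪v, ((2 : ℂ) • π (φ (z i))) w⟫_ℂ - c * ⟪p, (2 : ℂ) • ρ (z i) q⟫_ℂ =
      2 * ⟪v, π (φ (z i)) w⟫_ℂ - 2 * c * ⟪p, ρ (z i) q⟫_ℂ := by
    rw [ContinuousLinearMap.smul_apply, inner_smul_right, inner_smul_right]
    ring
  rw [e]
  exact h1

end Pool.Agent.TH387.EI
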