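import Pool.Agent.TH83.SQ.Defs

/-!
Dyadic selection of residue classes.
-/

set_option autoImplicit false

namespace Pool.Agent.TH83.SQ

open Finset
open scoped Pointwise Classical

namespace Sel

lemma cls_eq {Q : ℤ} {X : Finset ℤ} {x y : ℤ} (h : Q ∣ y - x) : cls Q X y = cls Q X x := by
  unfold cls
  refine filter_congr fun z _ => ?_
  have e1 : z - x = (z - y) + (y - x) := by ring
  have e2 : z - y = (z - x) - (y - x) := by ring
  constructor
  · intro h1; rw [e1]; exact dvd_add h1 h
  · intro h1; rw [e2]; exact dvd_sub h1 h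

lemma mem_cls_self {Q : ℤ} {X : Finset ℤ} {x : ℤ} (hx : x ∈ X) : x ∈ cls Q X x := by
  unfold cls
  rw [mem_filter]
  exact ⟨hx, by simp⟩

/-- the dyadic index of the class -/
def idx (Q : ℤ) (X : Finset ℤ) (x : ℤ) : ℕ := Nat.log 2 (X.card / (cls Q X x).card)

lemma idx_spec {Q : ℤ} {X : Finset ℤ} {x : ℤ} (hx : x ∈ X) :
    X.card ≤ 2 ^ (idx Q X x + 1) * (cls Q X x).card ∧
      2 ^ idx Q X x * (cls Q X x).card ≤ X.card := by
  have hc : 0 < (cls Q X x).card := card_pos.2 ⟨x, mem_cls_self hx⟩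
  have hle : (cls Q X x).card ≤ X.card := card_le_card (filter_subset _ _)
  have hq : X.card / (cls Q X x).card ≠ 0 := (Nat.div_pos hle hc).ne'
  constructor
  · have h1 := Nat.lt_pow_succ_log_self (b := 2) (by norm_num) (X.card / (cls Q X x).card)
    have h2 := (Nat.div_lt_iff_lt_mul hc).1 h1
    exact h2.le
  · have h1 := Nat.pow_log_le_self 2 hq
    exact (Nat.le_div_iff_mul_le hc).1 h1

lemma telescope (n : ℕ) : ∑ i ∈ range n, (1 : ℝ) / ((i + 1) * (i + 2)) = 1 - 1 / (n + 1) := by
  induction n with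
  | zero => simp
  | succ n ih =>
    rw [sum_range_succ, ih]
    push_cast
    field_simp
    ring

end Sel

open Sel

theorem sel (Q : ℤ) (X : Finset ℤ) (hX : X.Nonempty) :
    ∃ (i : ℕ) (T : Finset ℤ), T ⊆ X ∧ T.Nonempty ∧
      (∀ t ∈ T, ∀ t' ∈ T, Q ∣ t - t' → t = t') ∧
      (∀ t ∈ T, X.card ≤ 2 ^ (i + 1) * (cls Q X t).card ∧ 2 ^ i * (cls Q X t).card ≤ X.card) ∧
      2 ^ i ≤ T.card * ((i + 1) * (i + 2)) := by
  have hXc : 0 < X.card := card_pos.2 hX
  obtain ⟨i, hi0, hi⟩ : ∃ i, (X.filter fun x => idx Q X x = i).Nonempty ∧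
      X.card ≤ (X.filter fun x => idx Q X x = i).card * ((i + 1) * (i + 2)) := by
    by_contra hcon
    push Not at hcon
    have h1 : ∀ i, (((X.filter fun x => idx Q X x = i).card : ℕ) : ℝ) ≤
        X.card * (1 / (((i : ℝ) + 1) * (i + 2))) := by
      intro i
      rcases (X.filter fun x => idx Q X x = i).eq_empty_or_nonempty with h | h
      · rw [h, card_empty, Nat.cast_zero]; positivity
      · have h2 := hcon i h
        have h3 : (((X.filter fun x => idx Q X x = i).card : ℕ) : ℝ) *
            (((i : ℝ) + 1) * (i + 2)) ≤ X.card := by exact_mod_cast h2.le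
        rw [mul_one_div, le_div_iff₀ (by positivity)]
        exact h3
    set n := X.sup (idx Q X) + 1 with hn
    have h2 : X.card = ∑ i ∈ range n, (X.filter fun x => idx Q X x = i).card := by
      refine card_eq_sum_card_fiberwise ?_
      intro x hx
      have := le_sup (f := idx Q X) hx
      simp only [coe_range, Set.mem_Iio, hn]
      omega
    have h3 : (X.card : ℝ) ≤ X.card * (1 - 1 / ((n : ℝ) + 1)) := by
      have h4 : (X.card : ℝ) = ∑ i ∈ range n, ((X.filter fun x => idx Q X x = i).card : ℝ) := by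
        exact_mod_cast h2
      rw [← telescope n, mul_sum]
      conv_lhs => rw [h4]
      exact sum_le_sum fun i _ => h1 i
    have h5 : (0 : ℝ) < X.card := by exact_mod_cast hXc
    have h6 : (0 : ℝ) < 1 / ((n : ℝ) + 1) := by positivity
    nlinarith [mul_pos h5 h6]
  set Y := X.filter fun x => idx Q X x = i with hY
  set T := Y.filter fun x => ∀ y ∈ X, Q ∣ y - x → x ≤ y with hT
  have hYX : Y ⊆ X := filter_subset _ _
  have hTY : T ⊆ Y := filter_subset _ _
  -- every element of `Y` has a representative in `T`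
  have hrep : ∀ x ∈ Y, ∃ t ∈ T, x ∈ cls Q X t := by
    intro x hx
    have hx' := hYX hx
    have hne : (cls Q X x).Nonempty := ⟨x, mem_cls_self hx'⟩
    set m := (cls Q X x).min' hne with hm
    have hm1 : m ∈ cls Q X x := min'_mem _ _
    have hm2 : m ∈ X ∧ Q ∣ m - x := by
      unfold cls at hm1
      exact mem_filter.1 hm1
    have hcls : cls Q X m = cls Q X x := cls_eq hm2.2
    refine ⟨m, ?_, ?_⟩
    · rw [hT, mem_filter, hY, mem_filter]
      refine ⟨⟨hm2.1, ?_⟩, ?_⟩
      · unfold idx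
        rw [hcls]
        exact (mem_filter.1 hx).2
      · intro y hy hd
        refine min'_le _ _ ?_
        rw [← hcls]
        unfold cls
        exact mem_filter.2 ⟨hy, hd⟩
    · rw [hcls]; exact mem_cls_self hx'
  refine ⟨i, T, hTY.trans hYX, ?_, ?_, ?_, ?_⟩
  · obtain ⟨x, hx⟩ := hi0
    obtain ⟨t, ht, _⟩ := hrep x hx
    exact ⟨t, ht⟩
  · intro t ht t' ht' hd
    have h1 := (mem_filter.1 ht).2 t' (hYX (hTY ht')) (by
      have : t' - t = -(t - t') := by ring
      rw [this]; exact (dvd_neg).2 hd)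
    have h2 := (mem_filter.1 ht').2 t (hYX (hTY ht)) hd
    exact le_antisymm h1 h2
  · intro t ht
    have h1 := idx_spec (Q := Q) (hYX (hTY ht))
    have h2 : idx Q X t = i := (mem_filter.1 (hTY ht)).2
    rw [h2] at h1
    exact h1
  · have h1 : Y.card ≤ ∑ t ∈ T, (cls Q X t).card := by
      refine (card_le_card ?_).trans card_biUnion_le
      intro x hx
      obtain ⟨t, ht, h⟩ := hrep x hx
      exact mem_biUnion.2 ⟨t, ht, h⟩
    have h2 : 2 ^ i * Y.card ≤ T.card * X.card := by
      refine (Nat.mul_le_mul_left _ h1).trans ?_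
      rw [mul_sum, ← smul_eq_mul, ← sum_const]
      refine sum_le_sum fun t ht => ?_
      have h1 := idx_spec (Q := Q) (hYX (hTY ht))
      have h2 : idx Q X t = i := (mem_filter.1 (hTY ht)).2
      rw [h2] at h1
      exact h1.2
    have h3 : 2 ^ i * Y.card ≤ T.card * ((i + 1) * (i + 2)) * Y.card := by
      refine h2.trans ?_
      calc T.card * X.card ≤ T.card * (Y.card * ((i + 1) * (i + 2))) := Nat.mul_le_mul_left _ hi
        _ = T.card * ((i + 1) * (i + 2)) * Y.card := by ring
    exact Nat.le_of_mul_le_mul_right h3 (card_pos.2 hi0)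

end Pool.Agent.TH83.SQ
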