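import Mathlib
import Pool.Agent.TH949.TX.EDefs
import Pool.Agent.TH949.TX.SDefs

/-! Project TX (helper949): the Euler product as the exponential of a Dirichlet series. -/

set_option autoImplicit false

open Complex MeasureTheory Set Filter Topology
open Pool.Agent.W189.TP (DS)

namespace Pool.Agent.TH720.TXE

open Pool.Agent.TH949.TX

variable {T : Set ℕ}

theorem rexp_LP (hT : ∀ p ∈ T, p.Prime) (x : T × ℕ) (σ : ℝ) :
    Real.exp (-(σ * LP x)) = (((x.1 : ℕ) : ℝ) ^ (-σ)) ^ (x.2 + 1) := by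
  have hp : (0 : ℝ) < ((x.1 : ℕ) : ℝ) := by exact_mod_cast (hT _ x.1.2).pos
  rw [Real.rpow_def_of_pos hp, ← Real.exp_nat_mul]
  congr 1
  unfold LP
  push_cast
  ring

theorem cexp_LP (hT : ∀ p ∈ T, p.Prime) (x : T × ℕ) (s : ℂ) :
    cexp (-(s * LP x)) = (((x.1 : ℕ) : ℂ) ^ (-s)) ^ (x.2 + 1) := by
  have hp : ((x.1 : ℕ) : ℂ) ≠ 0 := by exact_mod_cast (hT _ x.1.2).ne_zero
  rw [Complex.cpow_def_of_ne_zero hp, ← Complex.exp_nat_mul]
  congr 1
  unfold LP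
  push_cast
  ring

theorem rpow_lt (hT : ∀ p ∈ T, p.Prime) (p : T) {σ : ℝ} (hσ : 0 < σ) :
    ((p : ℕ) : ℝ) ^ (-σ) < 1 := by
  have hp : (1 : ℝ) < ((p : ℕ) : ℝ) := by exact_mod_cast (hT _ p.2).one_lt
  exact Real.rpow_lt_one_of_one_lt_of_neg hp (by linarith)

/-- summability over the prime powers -/
theorem summ (hT : ∀ p ∈ T, p.Prime) {t : ℝ} (ht : 1 < t) :
    Summable fun x : T × ℕ => Real.exp (-(t * LP x)) := by
  have ht0 : 0 < t := by linarith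
  have h2 : (2 : ℝ) ^ (-t) < 1 := Real.rpow_lt_one_of_one_lt_of_neg (by norm_num) (by linarith)
  have h : Summable fun p : T => ((p : ℕ) : ℝ) ^ (-t) :=
    (Real.summable_nat_rpow.2 (by linarith : -t < -1)).comp_injective Subtype.val_injective
  rw [summable_prod_of_nonneg (fun x => (Real.exp_pos _).le)]
  have hg : ∀ p : T, HasSum (fun k : ℕ => Real.exp (-(t * LP (p, k))))
      (((p : ℕ) : ℝ) ^ (-t) * (1 - ((p : ℕ) : ℝ) ^ (-t))⁻¹) := by
    intro p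
    have h3 := hasSum_geometric_of_lt_one (r := ((p : ℕ) : ℝ) ^ (-t)) (by positivity)
      (rpow_lt hT p ht0)
    refine (h3.mul_left (((p : ℕ) : ℝ) ^ (-t))).congr_fun fun k => ?_
    rw [rexp_LP hT, pow_succ]
    ring
  refine ⟨fun p => (hg p).summable, ?_⟩
  refine Summable.of_nonneg_of_le (fun p => tsum_nonneg fun k => (Real.exp_pos _).le)
    (fun p => ?_) (h.mul_right (1 - 2 ^ (-t))⁻¹)
  rw [(hg p).tsum_eq]
  refine mul_le_mul_of_nonneg_left ?_ (by positivity)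
  refine inv_anti₀ (by linarith) ?_
  have hp : (2 : ℝ) ≤ ((p : ℕ) : ℝ) := by exact_mod_cast (hT _ p.2).two_le
  have := Real.rpow_le_rpow_of_nonpos (by norm_num) hp (by linarith : -t ≤ 0)
  linarith

theorem abs_dP {n : ℕ} {α : ℕ → Fin n → ℂ} (hα : ∀ p ∈ T, ∀ i, ‖α p i‖ ≤ 1) (x : T × ℕ) :
    |dP α x| ≤ n := by
  unfold dP
  rw [abs_neg, abs_div]
  have h1 : |(∑ i, α (x.1 : ℕ) i ^ (x.2 + 1)).re| ≤ n := by
    refine (Complex.abs_re_le_norm _).trans ((norm_sum_le _ _).trans ?_)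
    refine (Finset.sum_le_sum (g := fun _ => (1 : ℝ)) fun i _ => ?_).trans (by simp)
    rw [norm_pow]
    exact pow_le_one₀ (norm_nonneg _) (hα _ x.1.2 i)
  have h0 : (0 : ℝ) ≤ x.2 := Nat.cast_nonneg _
  have h2 : (1 : ℝ) ≤ |(x.2 : ℝ) + 1| := by
    rw [abs_of_nonneg (by linarith)]
    linarith
  exact (div_le_self (abs_nonneg _) h2).trans h1

theorem t_euler {T : Set ℕ} (hT : ∀ p ∈ T, p.Prime) {n : ℕ} {α : ℕ → Fin n → ℂ}
    (hα : ∀ p ∈ T, ∀ i, ‖α p i‖ ≤ 1) (him : ∀ p ∈ T, ∀ k : ℕ, (∑ i, α p i ^ (k + 1)).im = 0) :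
    (∀ t : ℝ, 1 < t → Summable fun x : T × ℕ => |dP α x| * Real.exp (-(t * LP x))) ∧
    ∀ s : ℂ, 1 < s.re → ∀ z : ℂ,
      HasProd (fun p : T => ∏ i, (1 - α (p : ℕ) i * ((p : ℕ) : ℂ) ^ (-s))⁻¹) z →
      z⁻¹ = cexp (DS (dP (T := T) α) LP s) := by
  have hs1 : ∀ t : ℝ, 1 < t → Summable fun x : T × ℕ => |dP α x| * Real.exp (-(t * LP x)) := by
    intro t ht
    refine Summable.of_nonneg_of_le (fun x => by positivity) (fun x => ?_)
      ((summ hT ht).mul_left (n : ℝ))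
    exact mul_le_mul_of_nonneg_right (abs_dP hα x) (Real.exp_pos _).le
  refine ⟨hs1, fun s hs z hz => ?_⟩
  have hσ : 0 < s.re := by linarith
  have hF : HasSum (fun x : T × ℕ => (dP α x : ℂ) * cexp (-(s * LP x)))
      (DS (dP (T := T) α) LP s) := by
    unfold DS
    refine Summable.hasSum ?_
    refine Summable.of_norm ((hs1 s.re hs).congr fun x => ?_)
    exact (Pool.Agent.W189.TP.norm_term (dP α) LP s x).symm
  have hw : ∀ p : T, ∀ i, ‖α (p : ℕ) i * ((p : ℕ) : ℂ) ^ (-s)‖ < 1 := by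
    intro p i
    rw [norm_mul, Complex.norm_natCast_cpow_of_pos (hT _ p.2).pos, Complex.neg_re]
    have h1 := rpow_lt hT p hσ
    have h2 : 0 ≤ ((p : ℕ) : ℝ) ^ (-s.re) := by positivity
    calc ‖α (p : ℕ) i‖ * ((p : ℕ) : ℝ) ^ (-s.re) ≤ 1 * ((p : ℕ) : ℝ) ^ (-s.re) :=
          mul_le_mul_of_nonneg_right (hα _ p.2 i) h2
      _ < 1 := by rwa [one_mul]
  have hfib : ∀ p : T, HasSum (fun k : ℕ => (dP α (p, k) : ℂ) * cexp (-(s * LP (p, k))))
      (∑ i, Complex.log (1 - α (p : ℕ) i * ((p : ℕ) : ℂ) ^ (-s))) := by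
    intro p
    have h1 : HasSum (fun k : ℕ => ∑ i, -((α (p : ℕ) i * ((p : ℕ) : ℂ) ^ (-s)) ^ (k + 1) /
        ((k : ℂ) + 1))) (∑ i, Complex.log (1 - α (p : ℕ) i * ((p : ℕ) : ℂ) ^ (-s))) := by
      refine hasSum_sum fun i _ => ?_
      have h2 := (hasSum_taylorSeries_neg_log' (hw p i)).neg
      rwa [neg_neg] at h2
    refine h1.congr_fun fun k => ?_
    rw [cexp_LP hT]
    have h3 : ((∑ i, α (p : ℕ) i ^ (k + 1)).re : ℂ) = ∑ i, α (p : ℕ) i ^ (k + 1) :=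
      Complex.ext (by simp) (by simpa using (him _ p.2 k).symm)
    unfold dP
    push_cast
    have h4 : (((∑ i, α ((p, k) : T × ℕ).1 i ^ (((p, k) : T × ℕ).2 + 1)).re : ℝ) : ℂ) =
        ∑ i, α (p : ℕ) i ^ (k + 1) := h3
    rw [Finset.sum_neg_distrib, ← Finset.sum_div]
    simp only [mul_pow, ← Finset.sum_mul]
    rw [h4]
    ring
  have hne : ∀ p : T, ∀ i, 1 - α (p : ℕ) i * ((p : ℕ) : ℂ) ^ (-s) ≠ 0 := by
    intro p i h0
    have h1 := hw p i
    rw [← sub_eq_zero.1 h0, norm_one] at h1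
    exact lt_irrefl _ h1
  have hP := (hF.prod_fiberwise hfib).cexp
  have h1 := hz.mul hP
  have h2 : (fun p : T => (∏ i, (1 - α (p : ℕ) i * ((p : ℕ) : ℂ) ^ (-s))⁻¹) *
      (cexp ∘ fun p : T => ∑ i, Complex.log (1 - α (p : ℕ) i * ((p : ℕ) : ℂ) ^ (-s))) p) =
      fun _ => 1 := by
    funext p
    rw [Function.comp_apply, Complex.exp_sum, ← Finset.prod_mul_distrib]
    refine Finset.prod_eq_one fun i _ => ?_
    rw [Complex.exp_log (hne p i), inv_mul_cancel₀ (hne p i)]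
  rw [h2] at h1
  have h3 := h1.unique hasProd_one
  exact inv_eq_of_mul_eq_one_right h3

end Pool.Agent.TH720.TXE
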